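import Pool.Agent.Lib_helper99.FSP.Core

set_option autoImplicit false

/-!
The killing lemma.
-/

namespace Pool.Agent.Lib_helper99.FSP

open MvPowerSeries

variable [Pr]

/-- infinite sums of power series with increasing order in `y` -/
noncomputable def ySum (b : ℕ → PS) : PS := fun m => ∑ n ∈ Finset.range (m 1 + 1), coeff m (b n)

lemma coeff_ySum (b : ℕ → PS) (m : Fin 2 →₀ ℕ) :
    coeff m (ySum b) = ∑ n ∈ Finset.range (m 1 + 1), coeff m (b n) := rfl

lemma ySum_sub {b : ℕ → PS} {r : ℕ → ℕ} (hr : Monotone r) (hrn : ∀ n, n ≤ r n)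
    (hb : ∀ n, X 1 ^ r n ∣ b n) (N : ℕ) :
    X 1 ^ r N ∣ ySum b - ∑ n ∈ Finset.range N, b n := by
  classical
  rw [X_pow_dvd_iff]
  intro m hm
  rw [map_sub, coeff_ySum, map_sum, sub_eq_zero]
  have h0 : ∀ n, m 1 < r n → coeff m (b n) = 0 := by
    intro n hn
    have := hb n
    rw [X_pow_dvd_iff] at this
    exact this m hn
  rcases le_total (m 1 + 1) N with h | h
  · apply Finset.sum_subset (Finset.range_mono h)
    intro n _ hn
    apply h0
    rw [Finset.mem_range] at hn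
    have := hrn n
    omega
  · symm
    apply Finset.sum_subset (Finset.range_mono h)
    intro n _ hn
    apply h0
    rw [Finset.mem_range, not_lt] at hn
    exact lt_of_lt_of_le hm (hr hn)

variable (e : ℕ) (psi : RR →+ RR)

/-- the value of `psi` as a power series -/
noncomputable def pv (f : PS) (hf : f ∈ RR) : PS := (psi ⟨f, hf⟩ : PS)

lemma pv_mem (f : PS) (hf : f ∈ RR) : pv psi f hf ∈ RR := (psi ⟨f, hf⟩).2

lemma pv_sub {f g : PS} (hf : f ∈ RR) (hg : g ∈ RR) (hfg : f - g ∈ RR) :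
    pv psi (f - g) hfg = pv psi f hf - pv psi g hg := by
  have : (⟨f - g, hfg⟩ : RR) = ⟨f, hf⟩ - ⟨g, hg⟩ := rfl
  rw [pv, this, map_sub]
  rfl

lemma pv_add {f g : PS} (hf : f ∈ RR) (hg : g ∈ RR) (hfg : f + g ∈ RR) :
    pv psi (f + g) hfg = pv psi f hf + pv psi g hg := by
  have : (⟨f + g, hfg⟩ : RR) = ⟨f, hf⟩ + ⟨g, hg⟩ := rfl
  rw [pv, this, map_add]
  rfl

variable {e psi}

lemma pv_pow_mul (hpsi : ∀ r x : RR, psi (r ^ (pp ^ e) * x) = r * psi x) {r f : PS} (hr : r ∈ RR)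
    (hf : f ∈ RR) (hrf : r ^ (pp ^ e) * f ∈ RR) : pv psi (r ^ (pp ^ e) * f) hrf = r * pv psi f hf := by
  have : (⟨r ^ (pp ^ e) * f, hrf⟩ : RR) = ⟨r, hr⟩ ^ (pp ^ e) * ⟨f, hf⟩ := rfl
  rw [pv, this, hpsi]
  rfl

lemma InG.memRR {n : ℕ} {h : PS} (hh : InG n h) : h ∈ RR := Pol_le_RR (PN_le_top _ hh.mem)

/-- bad levels have bad elements whose residue avoids `KK (2n+1)` -/
lemma exists_bad (hpsi : ∀ r x : RR, psi (r ^ (pp ^ e) * x) = r * psi x) {n : ℕ} {h : PS}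
    (hh : InG n h) (h0 : constantCoeff (pv psi h hh.memRR) ≠ 0) :
    ∃ (h' : PS) (hh' : InG n h'), constantCoeff (pv psi h' hh'.memRR) ∉ KK (2 * n + 1) := by
  by_cases hc : constantCoeff (pv psi h hh.memRR) ∈ KK (2 * n + 1)
  · have hz : (C (xx (2 * n + 1)) : PS) ∈ PN (n + 1) := C_mem_Pol (xx_mem (by omega))
    have hh' : InG n (C (xx (2 * n + 1)) ^ (pp ^ e) * h) := hh.mul (pow_mem hz _)
    refine ⟨_, hh', ?_⟩
    rw [pv_pow_mul hpsi (Pol_le_RR (PN_le_top _ hz)) hh.memRR, map_mul, constantCoeff_C]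
    exact xx_not_mem hc h0
  · exact ⟨h, hh, hc⟩

/-- terms of the test series -/
noncomputable def bt (e : ℕ) (hs : ℕ → PS) (eps : ℕ → Bool) (n : ℕ) : PS :=
  if eps n then X 1 ^ (pp ^ e * n.factorial) * hs n else 0

lemma bt_InG {hs : ℕ → PS} (hhs : ∀ n, InG n (hs n)) (eps : ℕ → Bool) (n : ℕ) :
    InG n (bt e hs eps n) := by
  rw [bt]
  split_ifs
  · exact (hhs n).mul (pow_mem (X_mem_Pol _ _) _)
  · exact InG.zero n

lemma bt_dvd (hs : ℕ → PS) (eps : ℕ → Bool) (n : ℕ) :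
    X 1 ^ (pp ^ e * n.factorial) ∣ bt e hs eps n := by
  rw [bt]
  split_ifs
  · exact dvd_mul_right _ _
  · exact dvd_zero _

lemma fact_mono (e : ℕ) : Monotone fun n : ℕ => pp ^ e * n.factorial := by
  intro a b hab
  exact Nat.mul_le_mul_left _ (Nat.factorial_le hab)

lemma le_fact (e n : ℕ) : n.factorial ≤ pp ^ e * n.factorial :=
  Nat.le_mul_of_pos_left _ (pow_pos pp_pos e)

lemma ySum_bt_sub (hs : ℕ → PS) (eps : ℕ → Bool) (N : ℕ) :
    X 1 ^ (pp ^ e * N.factorial) ∣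
      ySum (bt e hs eps) - ∑ n ∈ Finset.range N, bt e hs eps n :=
  ySum_sub (r := fun n => pp ^ e * n.factorial) (fact_mono e)
    (fun n => (Nat.self_le_factorial n).trans (le_fact e n)) (bt_dvd hs eps) N

lemma sum_bt_mem {hs : ℕ → PS} (hhs : ∀ n, InG n (hs n)) (eps : ℕ → Bool) (N : ℕ) :
    ∑ n ∈ Finset.range N, bt e hs eps n ∈ PN N := by
  refine sum_mem fun n hn => ?_
  rw [Finset.mem_range] at hn
  exact PN_mono (by omega) (bt_InG hhs eps n).mem

lemma tame_ySum {hs : ℕ → PS} (hhs : ∀ n, InG n (hs n)) (eps : ℕ → Bool) :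
    Tame 1 (ySum (bt e hs eps)) := by
  refine ⟨fun N => ∑ n ∈ Finset.range N, bt e hs eps n, fun n _ => ⟨?_, ?_, fun d hd => ?_⟩⟩
  · exact sum_bt_mem hhs eps n
  · simp only [Finset.sum_range_succ, add_sub_cancel_left]
    exact bt_InG hhs eps n
  · rw [one_mul] at hd
    exact (pow_dvd_pow _ (hd.trans (le_fact e n))).trans (ySum_bt_sub hs eps n)

lemma ySum_mem {hs : ℕ → PS} (hhs : ∀ n, InG n (hs n)) (eps : ℕ → Bool) :
    ySum (bt e hs eps) ∈ RR := TT_le_RR ⟨1, tame_ySum hhs eps⟩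

/-- difference of two test series agreeing below `n` -/
lemma ySum_diff {hs : ℕ → PS} (hhs : ∀ n, InG n (hs n)) {eps eps' : ℕ → Bool} {n : ℕ}
    (hlt : ∀ i < n, eps i = eps' i) (h1 : eps n = true) (h2 : eps' n = false) :
    ∃ w ∈ RR, ySum (bt e hs eps) - ySum (bt e hs eps') =
      X 1 ^ (pp ^ e * n.factorial) * hs n + X 1 ^ (pp ^ e * (n + 1).factorial) * w := by
  obtain ⟨w, hw⟩ := ySum_bt_sub (e := e) hs eps (n + 1)
  obtain ⟨w', hw'⟩ := ySum_bt_sub (e := e) hs eps' (n + 1)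
  have hsum : ∑ i ∈ Finset.range n, bt e hs eps i = ∑ i ∈ Finset.range n, bt e hs eps' i := by
    refine Finset.sum_congr rfl fun i hi => ?_
    rw [Finset.mem_range] at hi
    rw [bt, bt, hlt i hi]
  rw [Finset.sum_range_succ] at hw hw'
  have e1 : bt e hs eps n = X 1 ^ (pp ^ e * n.factorial) * hs n := by
    rw [bt, h1]; simp
  have e2 : bt e hs eps' n = 0 := by
    rw [bt, h2]; simp
  rw [e1] at hw
  rw [e2] at hw'
  have key : ySum (bt e hs eps) - ySum (bt e hs eps') =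
      X 1 ^ (pp ^ e * n.factorial) * hs n + X 1 ^ (pp ^ e * (n + 1).factorial) * (w - w') := by
    linear_combination hw - hw' + hsum
  refine ⟨w - w', ?_, key⟩
  refine RR_div (f := ySum (bt e hs eps) - ySum (bt e hs eps') -
    X 1 ^ (pp ^ e * n.factorial) * hs n) ?_
    (pow_mem (Pol_le_RR (X_mem_Pol _ 1)) (pp ^ e * (n + 1).factorial)) (pow_ne_zero _ X1_ne) ?_
  · exact sub_mem (sub_mem (ySum_mem hhs eps) (ySum_mem hhs eps'))
      (mul_mem (pow_mem (Pol_le_RR (X_mem_Pol _ 1)) _) (hhs n).memRR)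
  · rw [key]; ring

/-- the Baire category statement used below -/
def BairePairs : Prop := ∀ E : ℕ → Set (ℕ → Bool), (∀ eps, ∃ N, eps ∈ E N) →
  ∃ N M, ∀ n, M ≤ n → ∃ eps ∈ E N, ∃ eps' ∈ E N,
    (∀ i < n, eps i = eps' i) ∧ eps n = true ∧ eps' n = false

theorem kill (hB : BairePairs) (hpsi : ∀ r x : RR, psi (r ^ (pp ^ e) * x) = r * psi x) :
    ∃ N0, ∀ n, N0 ≤ n → ∀ (h : PS) (hh : InG n h), constantCoeff (pv psi h hh.memRR) = 0 := by
  classical
  by_contra hcon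
  push Not at hcon
  -- choose bad elements
  let Bad : ℕ → PS → Prop := fun n h => ∃ hh : InG n h,
    constantCoeff (pv psi h hh.memRR) ∉ KK (2 * n + 1)
  have hbad : ∀ N0, ∃ n, N0 ≤ n ∧ ∃ h, Bad n h := by
    intro N0
    obtain ⟨n, hn, h, hh, h0⟩ := hcon N0
    obtain ⟨h', hh', hc⟩ := exists_bad hpsi hh h0
    exact ⟨n, hn, h', hh', hc⟩
  let hs : ℕ → PS := fun n => if hn : ∃ h, Bad n h then hn.choose else 0
  have hhs : ∀ n, InG n (hs n) := by
    intro n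
    by_cases hn : ∃ h, Bad n h
    · have : hs n = hn.choose := dif_pos hn
      rw [this]
      exact hn.choose_spec.choose
    · have : hs n = 0 := dif_neg hn
      rw [this]
      exact InG.zero n
  have hhs2 : ∀ n, (∃ h, Bad n h) →
      constantCoeff (pv psi (hs n) (hhs n).memRR) ∉ KK (2 * n + 1) := by
    intro n hn
    have h1 : hs n = hn.choose := dif_pos hn
    obtain ⟨hh, hc⟩ := hn.choose_spec
    have : ∀ (f : PS) (hf : f ∈ RR), f = hn.choose → constantCoeff (pv psi f hf) ∉ KK (2 * n + 1) := by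
      rintro _ hf rfl
      exact hc
    exact this _ _ h1
  -- the classes
  let θ : (ℕ → Bool) → PS := fun eps => pv psi (ySum (bt e hs eps)) (ySum_mem hhs eps)
  let E : ℕ → Set (ℕ → Bool) := fun N => {eps | ∃ G, Tame N G ∧ G.order ≤ N ∧ Tame N (G * θ eps)}
  have hE : ∀ eps, ∃ N, eps ∈ E N := by
    intro eps
    obtain ⟨G, ⟨N1, h1⟩, hG0, ⟨N2, h2⟩⟩ := pv_mem psi (ySum (bt e hs eps)) (ySum_mem hhs eps)
    have hfin : ∃ k : ℕ, G.order ≤ k := by
      obtain ⟨m, hm⟩ : ∃ m, coeff m G ≠ 0 := by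
        by_contra hc
        push Not at hc
        exact hG0 (by ext m; rw [hc m, map_zero])
      exact ⟨m.degree, order_le hm⟩
    obtain ⟨k, hk⟩ := hfin
    refine ⟨max (max N1 N2) k, G, h1.mono ?_, ?_, h2.mono ?_⟩
    · exact (le_max_left _ _).trans (le_max_left _ _)
    · exact hk.trans (by exact_mod_cast le_max_right _ _)
    · exact (le_max_right _ _).trans (le_max_left _ _)
  obtain ⟨N, M, hNM⟩ := hB E hE
  obtain ⟨n, hn, hbn⟩ := hbad (max M ((N + 1) * (2 * (pp * (N + 1)) + pp + 1)))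
  obtain ⟨eps, ⟨G, hG, hGo, hGθ⟩, eps', ⟨G', hG', hGo', hGθ'⟩, hlt, ht, hf⟩ :=
    hNM n ((le_max_left _ _).trans hn)
  obtain ⟨w, hw, hdiff⟩ := ySum_diff (e := e) hhs hlt ht hf
  apply hhs2 n hbn
  have hy : (X 1 : PS) ∈ RR := Pol_le_RR (X_mem_Pol _ 1)
  refine core (N := N + 1) (by omega) (((le_max_right _ _).trans hn).trans (Nat.le_succ n))
    (hG.mono (Nat.le_succ _)) (hG'.mono (Nat.le_succ _)) (hGo.trans (by exact_mod_cast Nat.le_succ _))
    (hGo'.trans (by exact_mod_cast Nat.le_succ _)) (θ := θ eps) (θ' := θ eps')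
    (w := pv psi w hw)
    (hGθ.mono (Nat.le_succ _)) (hGθ'.mono (Nat.le_succ _)) ?_
  have e1 : X 1 ^ (pp ^ e * n.factorial) * hs n = (X 1 ^ n.factorial) ^ (pp ^ e) * hs n := by
    rw [← pow_mul, mul_comm (pp ^ e)]
  have e2 : X 1 ^ (pp ^ e * (n + 1).factorial) * w = (X 1 ^ (n + 1).factorial) ^ (pp ^ e) * w := by
    rw [← pow_mul, mul_comm (pp ^ e)]
  rw [e1, e2] at hdiff
  have m1 : (X 1 ^ n.factorial) ^ (pp ^ e) * hs n ∈ RR :=
    mul_mem (pow_mem (pow_mem hy _) _) (hhs n).memRR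
  have m2 : (X 1 ^ (n + 1).factorial) ^ (pp ^ e) * w ∈ RR :=
    mul_mem (pow_mem (pow_mem hy _) _) hw
  have m3 : ySum (bt e hs eps) - ySum (bt e hs eps') ∈ RR :=
    sub_mem (ySum_mem hhs eps) (ySum_mem hhs eps')
  have h1 : θ eps - θ eps' = pv psi (ySum (bt e hs eps) - ySum (bt e hs eps')) m3 :=
    (pv_sub psi _ _ _).symm
  have h2 : ∀ (f g : PS) (hf : f ∈ RR) (hg : g ∈ RR), f = g → pv psi f hf = pv psi g hg := by
    rintro f _ hf hg rfl
    rfl
  rw [h1, h2 _ _ m3 (add_mem m1 m2) hdiff, pv_add psi m1 m2,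
    pv_pow_mul hpsi (pow_mem hy _) (hhs n).memRR, pv_pow_mul hpsi (pow_mem hy _) hw]

end Pool.Agent.Lib_helper99.FSP
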