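import Pool.Agent.Lib_helper99.FSP.Kill
import Pool.Agent.Lib_helper7.FSBaire
import Pool.Agent.Lib_helper99.FSP.StepB

set_option autoImplicit false

/-!
A Frobenius split regular local ring of dimension two which is not split F-regular.
-/

namespace Pool.Agent.Lib_helper99.FSP

open MvPowerSeries

variable [Pr]

/-- `phi` on the ring `RR` -/
noncomputable def phiR : RR →+ RR where
  toFun f := ⟨phi (f : PS), phi_mem_RR f.2⟩
  map_zero' := Subtype.ext (map_zero phi)
  map_add' f g := Subtype.ext (map_add phi (f : PS) (g : PS))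

lemma phiR_pow_mul (r x : RR) : phiR (r ^ pp * x) = r * phiR x :=
  Subtype.ext (phi_pow_mul (r : PS) (x : PS))

lemma phiR_one : phiR 1 = 1 := Subtype.ext phi_one

lemma gg0_eq : gg 0 * 1 = ((rx : RR) : PS) := mul_one _

lemma gg0_mem : gg 0 * 1 ∈ RR := gg0_eq ▸ rx.2

theorem no_split (e : ℕ) (psi : RR →+ RR) (hpsi : ∀ r x : RR, psi (r ^ (pp ^ e) * x) = r * psi x) :
    psi rx ≠ 1 := by
  obtain ⟨N0, hN0⟩ := kill (e := e) (psi := psi)
    (fun E hE => Pool.Agent.Lib_helper7.FSBaire.baire_pairs E hE) hpsi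
  have h := StepB.stepB RR (fun n => (PN_le_top n).trans Pol_le_RR) e psi
    hpsi N0 (fun n hn f hf hg => hN0 n hn (gg (n + 2) * f) ⟨f, hf, rfl⟩) 0 1 (one_mem _) gg0_mem
  intro h1
  have e1 : (⟨gg 0 * 1, gg0_mem⟩ : RR) = rx := Subtype.ext gg0_eq
  rw [e1, h1] at h
  simp at h

lemma rx_ne : rx ≠ 0 := by
  intro h
  have := ry_not_dvd 1
  rw [pow_one, h] at this
  exact this (dvd_zero _)

lemma rx_ne_ry : rx ≠ ry := by
  intro h
  have := ry_not_dvd 1
  rw [pow_one, h] at this
  exact this dvd_rfl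

end Pool.Agent.Lib_helper99.FSP
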