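import Pool.Agent.Lib_helper99.FSP.Std

set_option autoImplicit false

/-!
The subrings `Pol K` of polynomials with coefficients in a subfield `K` of `kk`.
-/

namespace Pool.Agent.Lib_helper99.FSP

open MvPowerSeries

variable [Pr]

/-- the map from polynomials over `K` to power series over `kk` -/
noncomputable def polMap (K : Subfield kk) : MvPolynomial (Fin 2) K →+* PS :=
  (MvPolynomial.coeToMvPowerSeries.ringHom).comp (MvPolynomial.map K.subtype)

/-- polynomials with coefficients in `K` -/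
noncomputable def Pol (K : Subfield kk) : Subring PS := (polMap K).range

lemma coeff_polMap (K : Subfield kk) (p : MvPolynomial (Fin 2) K) (m : Fin 2 →₀ ℕ) :
    coeff m (polMap K p) = (MvPolynomial.coeff m p : K) := by
  rw [polMap, RingHom.comp_apply, MvPolynomial.coeToMvPowerSeries.ringHom_apply,
    MvPolynomial.coeff_coe, MvPolynomial.coeff_map]
  rfl

lemma mem_Pol_iff {K : Subfield kk} {f : PS} :
    f ∈ Pol K ↔ (∀ m, coeff m f ∈ K) ∧ {m | coeff m f ≠ 0}.Finite := by
  classical
  constructor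
  · rintro ⟨p, rfl⟩
    refine ⟨fun m => ?_, ?_⟩
    · rw [coeff_polMap]; exact (MvPolynomial.coeff m p).2
    · refine (p.support.finite_toSet).subset fun m hm => ?_
      rw [Set.mem_ofPred_eq, coeff_polMap] at hm
      rw [Finset.mem_coe, MvPolynomial.mem_support_iff]
      intro h
      rw [h] at hm
      exact hm rfl
  · rintro ⟨h1, h2⟩
    refine ⟨∑ m ∈ h2.toFinset, MvPolynomial.monomial m ⟨coeff m f, h1 m⟩, ?_⟩
    ext m
    rw [coeff_polMap, MvPolynomial.coeff_sum]
    by_cases hm : coeff m f = 0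
    · rw [Finset.sum_eq_zero, hm]
      · rfl
      · intro n hn
        rw [MvPolynomial.coeff_monomial, if_neg]
        rintro rfl
        rw [Set.Finite.mem_toFinset] at hn
        exact hn hm
    · rw [Finset.sum_eq_single_of_mem m (by rw [Set.Finite.mem_toFinset]; exact hm)]
      · rw [MvPolynomial.coeff_monomial, if_pos rfl]
      · intro n _ hne
        rw [MvPolynomial.coeff_monomial, if_neg hne]

lemma coeff_mem_of_Pol {K : Subfield kk} {f : PS} (h : f ∈ Pol K) (m : Fin 2 →₀ ℕ) :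
    coeff m f ∈ K := (mem_Pol_iff.1 h).1 m

lemma C_mem_Pol {K : Subfield kk} {c : kk} (hc : c ∈ K) : (C c : PS) ∈ Pol K := by
  refine ⟨MvPolynomial.C ⟨c, hc⟩, ?_⟩
  simp [polMap]

lemma X_mem_Pol (K : Subfield kk) (i : Fin 2) : (X i : PS) ∈ Pol K := by
  refine ⟨MvPolynomial.X i, ?_⟩
  simp [polMap]

lemma Pol_mono {K L : Subfield kk} (h : K ≤ L) : Pol K ≤ Pol L := by
  intro f hf
  rw [mem_Pol_iff] at hf ⊢
  exact ⟨fun m => h (hf.1 m), hf.2⟩

lemma Pol_induction {K : Subfield kk} {p : PS → Prop} (hC : ∀ c ∈ K, p (C c))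
    (hadd : ∀ f g, p f → p g → p (f + g))
    (hX : ∀ f i, f ∈ Pol K → p f → p (f * X i)) : ∀ f ∈ Pol K, p f := by
  rintro _ ⟨q, rfl⟩
  induction q using MvPolynomial.induction_on with
  | C a =>
    have : polMap K (MvPolynomial.C a) = C (a : kk) := by simp [polMap]
    rw [this]
    exact hC _ a.2
  | add p q hp hq => rw [map_add]; exact hadd _ _ hp hq
  | mul_X p i hp =>
    have : polMap K (MvPolynomial.X i) = X i := by simp [polMap]
    rw [map_mul, this]
    exact hX _ _ ⟨p, rfl⟩ hp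

lemma Pol_induction_monomial {K : Subfield kk} {p : PS → Prop}
    (hm : ∀ (m : Fin 2 →₀ ℕ), ∀ c ∈ K, p (monomial m c))
    (hadd : ∀ f g, p f → p g → p (f + g)) : ∀ f ∈ Pol K, p f := by
  rintro _ ⟨q, rfl⟩
  induction q using MvPolynomial.induction_on' with
  | monomial u a =>
    have : polMap K (MvPolynomial.monomial u a) = monomial u (a : kk) := by simp [polMap]
    rw [this]
    exact hm _ _ a.2
  | add p q hp hq => rw [map_add]; exact hadd _ _ hp hq

lemma map_mem_Pol {K : Subfield kk} (T : PS →ₐ[kk] PS) (h : ∀ i, T (X i) ∈ Pol K) {f : PS}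
    (hf : f ∈ Pol K) : T f ∈ Pol K := by
  refine Pol_induction (p := fun f => T f ∈ Pol K) ?_ ?_ ?_ f hf
  · intro c hc
    have : T (C c) = C c := T.commutes c
    rw [this]
    exact C_mem_Pol hc
  · intro f g hf hg
    rw [map_add]; exact add_mem hf hg
  · intro f i _ hf
    rw [map_mul]; exact mul_mem hf (h i)

lemma phiStd_mem_Pol {K : Subfield kk} (hK : ∀ c ∈ K, lam c ∈ K) {f : PS} (hf : f ∈ Pol K) :
    phiStd f ∈ Pol K := by
  rw [mem_Pol_iff] at hf ⊢
  refine ⟨fun m => hK _ (hf.1 _), ?_⟩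
  have hinj : Function.Injective (fun m : Fin 2 →₀ ℕ => pp • m) := by
    intro a b h
    have := congrArg dv h
    rwa [dv_smul, dv_smul] at this
  refine (hf.2.preimage hinj.injOn).subset fun m hm => ?_
  rw [Set.mem_ofPred_eq, coeff_phiStd] at hm
  rw [Set.mem_preimage, Set.mem_ofPred_eq]
  intro h
  rw [h, map_zero] at hm
  exact hm rfl

/-- division by a variable stays in `Pol K` -/
lemma mem_Pol_of_X_mul {K : Subfield kk} {f : PS} {i : Fin 2} (hf : X i * f ∈ Pol K) :
    f ∈ Pol K := by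
  rw [mem_Pol_iff] at hf ⊢
  have h : ∀ m, coeff m f = coeff (Finsupp.single i 1 + m) (X i * f) := by
    intro m
    rw [X, coeff_add_monomial_mul, one_mul]
  refine ⟨fun m => by rw [h]; exact hf.1 _, ?_⟩
  have hinj : Function.Injective (fun m : Fin 2 →₀ ℕ => Finsupp.single i 1 + m) :=
    add_right_injective _
  refine (hf.2.preimage hinj.injOn).subset fun m hm => ?_
  rw [Set.mem_ofPred_eq, h] at hm
  exact hm

/-- the polynomial subrings with coefficients in `F_p(X_i : i < 2n)` -/
noncomputable def PN (n : ℕ) : Subring PS := Pol (KK (2 * n))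

lemma PN_mono {n m : ℕ} (h : n ≤ m) : PN n ≤ PN m := Pol_mono (KK_mono (by omega))

lemma exists_PN {f : PS} (hf : f ∈ Pol ⊤) : ∃ n, f ∈ PN n := by
  classical
  rw [mem_Pol_iff] at hf
  have h1 : ∀ s : Finset (Fin 2 →₀ ℕ), ∃ j, ∀ m ∈ s, coeff m f ∈ KK j := by
    intro s
    induction s using Finset.induction_on with
    | empty => exact ⟨0, by simp⟩
    | insert a s _ ih =>
      obtain ⟨j, hj⟩ := ih
      obtain ⟨i, hi⟩ := exists_KK (coeff a f)
      refine ⟨max i j, fun m hm => ?_⟩
      rcases Finset.mem_insert.1 hm with rfl | hm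
      · exact KK_mono (le_max_left _ _) hi
      · exact KK_mono (le_max_right _ _) (hj m hm)
  obtain ⟨j, hj⟩ := h1 hf.2.toFinset
  refine ⟨j, ?_⟩
  rw [PN, mem_Pol_iff]
  refine ⟨fun m => ?_, hf.2⟩
  by_cases hm : coeff m f = 0
  · rw [hm]; exact (KK _).zero_mem
  · exact KK_mono (by omega) (hj m (by rw [Set.Finite.mem_toFinset]; exact hm))

lemma PN_le_top (n : ℕ) : PN n ≤ Pol ⊤ := Pol_mono le_top

/-- approximation of a power series by polynomials -/
lemma exists_trunc (f : PS) (D : ℕ) : ∃ p ∈ Pol ⊤, (D : ℕ∞) ≤ (f - p).order := by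
  classical
  refine ⟨(truncTotal D f).toMvPowerSeries, ?_, ?_⟩
  · rw [mem_Pol_iff]
    refine ⟨fun _ => Subfield.mem_top _, ?_⟩
    refine ((truncTotal D f).support.finite_toSet).subset fun m hm => ?_
    rw [Set.mem_ofPred_eq, MvPolynomial.coeff_coe] at hm
    rwa [Finset.mem_coe, MvPolynomial.mem_support_iff]
  · apply MvPowerSeries.le_order
    intro m hm
    rw [map_sub, MvPolynomial.coeff_coe, coeff_truncTotal _ (by exact_mod_cast hm), sub_self]

end Pool.Agent.Lib_helper99.FSP
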