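import Pool.Agent.Lib_helper99.FSP.Tame
import Pool.Agent.Lib_helper7.FSDim

set_option autoImplicit false

/-!
`RR` is a regular local ring of dimension two.
-/

namespace Pool.Agent.Lib_helper99.FSP

open MvPowerSeries

variable [Pr]

lemma isUnit_RR_iff (f : RR) : IsUnit f ↔ constantCoeff (f : PS) ≠ 0 := by
  constructor
  · intro h h0
    have h1 : IsUnit (f : PS) := h.map RR.subtype
    rw [isUnit_iff_constantCoeff, h0] at h1
    exact not_isUnit_zero h1
  · intro h
    refine isUnit_iff_exists_inv.2 ⟨⟨(f : PS)⁻¹, RR_inv f.2 h⟩, ?_⟩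
    apply Subtype.ext
    exact MvPowerSeries.mul_inv_cancel _ h

instance : IsLocalHom RR.subtype := ⟨fun f hf => by
  rw [isUnit_RR_iff]
  intro h0
  rw [RR.subtype_apply, isUnit_iff_constantCoeff, h0] at hf
  exact not_isUnit_zero hf⟩

instance : IsLocalRing RR := RingHom.domain_isLocalRing RR.subtype

instance : IsDomain PS := NoZeroDivisors.to_isDomain PS

instance : IsDomain RR := inferInstance

instance : CharP RR pp := RingHom.charP RR.subtype Subtype.val_injective pp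

/-- `x` -/
noncomputable def rx : RR := ⟨X 0, Pol_le_RR (X_mem_Pol _ 0)⟩
/-- `y` -/
noncomputable def ry : RR := ⟨X 1, Pol_le_RR (X_mem_Pol _ 1)⟩

lemma dvd_RR_iff (e : ℕ) (f : RR) : ry ^ e ∣ f ↔ (X 1 : PS) ^ e ∣ (f : PS) := by
  constructor
  · rintro ⟨g, rfl⟩
    exact ⟨(g : PS), rfl⟩
  · rintro ⟨g, hg⟩
    have h1 : X 1 ^ e * g ∈ RR := by rw [← hg]; exact f.2
    have h2 : g ∈ RR := RR_div h1 (pow_mem (Pol_le_RR (X_mem_Pol _ 1)) e) (pow_ne_zero e X1_ne) rfl
    exact ⟨⟨g, h2⟩, Subtype.ext hg⟩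

lemma dvd_RR_iff' (f : RR) : ry ∣ f ↔ (X 1 : PS) ∣ (f : PS) := by
  have := dvd_RR_iff 1 f
  rwa [pow_one, pow_one] at this

lemma ry_prime : Prime ry := by
  refine ⟨?_, ?_, ?_⟩
  · intro h
    exact X1_ne (congrArg Subtype.val h)
  · rw [isUnit_RR_iff]
    simp [ry]
  · intro a b h
    rw [dvd_RR_iff', dvd_RR_iff']
    rw [dvd_RR_iff'] at h
    exact X1_prime.dvd_or_dvd h

lemma rx_not_unit : ¬ IsUnit rx := by
  rw [isUnit_RR_iff]
  simp [rx]

lemma ry_not_dvd (n : ℕ) : ¬ ry ∣ rx ^ n := by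
  rw [dvd_RR_iff', X_dvd_iff]
  intro h
  have h1 := h (Finsupp.single 0 n) (by simp)
  have h2 : ((rx ^ n : RR) : PS) = X 0 ^ n := rfl
  rw [h2, X_pow_eq, coeff_monomial_same] at h1
  exact one_ne_zero h1

/-- polynomials in `x` -/
noncomputable def ix : Polynomial kk →+* PS := Polynomial.eval₂RingHom (C (σ := Fin 2)) (X 0)

lemma ix_C (c : kk) : ix (Polynomial.C c) = C c := by simp [ix]
lemma ix_X : ix Polynomial.X = X 0 := by simp [ix]

lemma ix_mem (p : Polynomial kk) : ix p ∈ Pol ⊤ := by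
  induction p using Polynomial.induction_on with
  | C a => rw [ix_C]; exact C_mem_Pol (Subfield.mem_top _)
  | add p q hp hq => rw [map_add]; exact add_mem hp hq
  | monomial n a _ =>
    rw [map_mul, map_pow, ix_C, ix_X]
    exact mul_mem (C_mem_Pol (Subfield.mem_top _)) (pow_mem (X_mem_Pol _ _) _)

lemma constantCoeff_ix (p : Polynomial kk) : constantCoeff (ix p) = p.coeff 0 := by
  have h : (constantCoeff (σ := Fin 2) (R := kk)).comp ix = Polynomial.constantCoeff := by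
    apply Polynomial.ringHom_ext
    · intro a
      simp [ix]
    · simp [ix]
  exact DFunLike.congr_fun h p

lemma exists_ix {p : PS} (hp : p ∈ Pol ⊤) : ∃ a : Polynomial kk, X 1 ∣ p - ix a := by
  refine Pol_induction (p := fun p => ∃ a : Polynomial kk, X 1 ∣ p - ix a) ?_ ?_ ?_ p hp
  · intro c _
    exact ⟨Polynomial.C c, by rw [ix_C, sub_self]; exact dvd_zero _⟩
  · rintro f g ⟨a, ha⟩ ⟨b, hb⟩
    refine ⟨a + b, ?_⟩
    have := dvd_add ha hb
    rw [map_add]
    convert this using 1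
    ring
  · rintro f i _ ⟨a, ha⟩
    fin_cases i
    · refine ⟨a * Polynomial.X, ?_⟩
      have := ha.mul_right (X 0)
      rw [map_mul, ix_X]
      convert this using 1
      change f * X 0 - _ = _
      ring
    · refine ⟨0, ?_⟩
      rw [map_zero, sub_zero]
      exact dvd_mul_left _ _

lemma exists_factor {a : Polynomial kk} (ha : a ≠ 0) :
    ∃ (v : ℕ) (b : Polynomial kk), a = Polynomial.X ^ v * b ∧ b.coeff 0 ≠ 0 := by
  obtain ⟨b, hb, hb2⟩ := Polynomial.exists_eq_pow_rootMultiplicity_mul_and_not_dvd a ha 0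
  refine ⟨Polynomial.rootMultiplicity 0 a, b, ?_, ?_⟩
  · rw [map_zero, sub_zero] at hb
    exact hb
  · rw [map_zero, sub_zero, Polynomial.X_dvd_iff] at hb2
    exact hb2

/-- removing powers of `y` from the denominator -/
lemma exists_good_denom {f : PS} (hf : f ∈ RR) : ∃ G ∈ TT, ¬ X 1 ∣ G ∧ G * f ∈ TT := by
  obtain ⟨G, hG, hG0, hGf⟩ := hf
  have hw : ∃ e : ℕ, ¬ X 1 ^ e ∣ G := by
    by_contra hcon
    push Not at hcon
    apply hG0
    ext m
    have := hcon (m 1 + 1)
    rw [X_pow_dvd_iff] at this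
    rw [this m (Nat.lt_succ_self _), map_zero]
  have key : ∀ (e : ℕ) (G : PS), G ∈ TT → G * f ∈ TT → ¬ X 1 ^ e ∣ G →
      ∃ G ∈ TT, ¬ X 1 ∣ G ∧ G * f ∈ TT := by
    intro e
    induction e with
    | zero => intro G _ _ h; exact absurd (by rw [pow_zero]; exact one_dvd _) h
    | succ e ih =>
      intro G hG hGf hne
      by_cases h : X 1 ∣ G
      · obtain ⟨G', rfl⟩ := h
        refine ih G' (TT_of_X1_mul hG) (TT_of_X1_mul (by rwa [mul_assoc] at hGf)) ?_
        intro h2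
        apply hne
        rw [pow_succ']
        exact mul_dvd_mul_left _ h2
      · exact ⟨G, hG, h, hGf⟩
  obtain ⟨e, he⟩ := hw
  exact key e G hG hGf he

lemma TT_mod_y {f : PS} (hf : f ∈ TT) : ∃ a : Polynomial kk, X 1 ∣ f - ix a := by
  obtain ⟨N, F, hF⟩ := hf
  obtain ⟨h1, _, h3⟩ := hF N le_rfl
  have h4 := h3 1 (by rw [mul_one]; exact Nat.self_le_factorial N)
  rw [pow_one] at h4
  obtain ⟨a, ha⟩ := exists_ix (PN_le_top N h1)
  refine ⟨a, ?_⟩
  have := dvd_add h4 ha
  convert this using 1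
  ring

lemma h1_RR (f : RR) : ry ∣ f ∨ ∃ v : ℕ, ∃ u : RR, IsUnit u ∧ ry ∣ f - rx ^ v * u := by
  obtain ⟨G, hG, hyG, hGf⟩ := exists_good_denom f.2
  obtain ⟨a, ha⟩ := TT_mod_y hG
  obtain ⟨b, hb⟩ := TT_mod_y hGf
  have ha0 : a ≠ 0 := by
    rintro rfl
    rw [map_zero, sub_zero] at ha
    exact hyG ha
  have hab : X 1 ∣ ix a * (f : PS) - ix b := by
    have := dvd_sub hb (ha.mul_right (f : PS))
    convert this using 1
    ring
  by_cases hb0 : b = 0
  · left
    rw [dvd_RR_iff']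
    rw [hb0, map_zero, sub_zero] at hab
    rcases X1_prime.dvd_or_dvd hab with h | h
    · exfalso
      apply hyG
      have := dvd_add ha h
      rwa [sub_add_cancel] at this
    · exact h
  · obtain ⟨v, a', rfl, ha'⟩ := exists_factor ha0
    obtain ⟨w, b', rfl, hb'⟩ := exists_factor hb0
    have hx : ∀ n, ¬ (X 1 : PS) ∣ X 0 ^ n := by
      intro n h
      apply ry_not_dvd n
      rw [dvd_RR_iff']
      exact h
    rw [map_mul, map_pow, ix_X, map_mul, map_pow, ix_X] at hab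
    by_cases hvw : v ≤ w
    · right
      obtain ⟨d, rfl⟩ := Nat.exists_eq_add_of_le hvw
      have h1 : X 1 ∣ X 0 ^ v * (ix a' * (f : PS) - X 0 ^ d * ix b') := by
        convert hab using 1
        ring
      rcases X1_prime.dvd_or_dvd h1 with h1 | h1
      · exact absurd h1 (hx v)
      · have hca : constantCoeff (ix a') ≠ 0 := by rwa [constantCoeff_ix]
        have hcb : constantCoeff (ix b') ≠ 0 := by rwa [constantCoeff_ix]
        have hu : ix b' * (ix a')⁻¹ ∈ RR :=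
          mul_mem (Pol_le_RR (ix_mem _)) (RR_inv (Pol_le_RR (ix_mem _)) hca)
        refine ⟨d, ⟨_, hu⟩, ?_, ?_⟩
        · rw [isUnit_RR_iff]
          simp only [map_mul, constantCoeff_inv]
          exact mul_ne_zero hcb (inv_ne_zero hca)
        · rw [dvd_RR_iff']
          have h2 := h1.mul_left (ix a')⁻¹
          have h3 := MvPowerSeries.inv_mul_cancel _ hca
          convert h2 using 1
          change (f : PS) - X 0 ^ d * (ix b' * (ix a')⁻¹) = _
          linear_combination (-(f : PS)) * h3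
    · exfalso
      obtain ⟨d, rfl⟩ := Nat.exists_eq_add_of_lt (not_le.1 hvw)
      have h1 : X 1 ∣ X 0 ^ w * (X 0 ^ (d + 1) * ix a' * (f : PS) - ix b') := by
        convert hab using 1
        ring
      rcases X1_prime.dvd_or_dvd h1 with h1 | h1
      · exact absurd h1 (hx w)
      · obtain ⟨c, hc⟩ := h1
        have h2 := congrArg constantCoeff hc
        rw [map_sub, map_mul, map_mul, map_pow, constantCoeff_ix, constantCoeff_ix, map_mul] at h2
        simp only [constantCoeff_X, zero_mul, ne_eq, Nat.succ_ne_zero, not_false_eq_true,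
          zero_pow, zero_sub, neg_eq_zero] at h2
        exact hb' h2

/-- `y`-adic limits of approximate quotients are quotients -/
lemma h2_PS (f g : PS) (hg : ¬ X 1 ∣ g) (h : ∀ N : ℕ, ∃ a : PS, X 1 ^ N ∣ f - g * a) : g ∣ f := by
  choose a ha using h
  have h1 : ∀ N M, N ≤ M → X 1 ^ N ∣ a M - a N := by
    intro N M hNM
    have h2 := dvd_sub (ha N) ((pow_dvd_pow (X 1 : PS) hNM).trans (ha M))
    have h3 : X 1 ^ N ∣ g * (a M - a N) := by
      convert h2 using 1
      ring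
    exact X1_prime.pow_dvd_of_dvd_mul_left N hg h3
  set b : PS := fun m => coeff m (a (m 1 + 1)) with hb
  have hcb : ∀ m, coeff m b = coeff m (a (m 1 + 1)) := fun m => rfl
  have h4 : ∀ N, X 1 ^ N ∣ b - a N := by
    intro N
    rw [X_pow_dvd_iff]
    intro m hm
    have h5 := h1 (m 1 + 1) N hm
    rw [X_pow_dvd_iff] at h5
    have h6 := h5 m (Nat.lt_succ_self _)
    rw [map_sub] at h6 ⊢
    rw [hcb, ← neg_sub, h6, neg_zero]
  refine ⟨b, ?_⟩
  rw [← sub_eq_zero]
  ext m
  have h5 := dvd_sub (ha (m 1 + 1)) ((h4 (m 1 + 1)).mul_left g)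
  have h6 : X 1 ^ (m 1 + 1) ∣ f - g * b := by
    convert h5 using 1
    ring
  rw [X_pow_dvd_iff] at h6
  rw [h6 m (Nat.lt_succ_self _), map_zero]

lemma h2_RR (f g : RR) (hg : ¬ ry ∣ g) (h : ∀ N : ℕ, ∃ a : RR, ry ^ N ∣ f - g * a) : g ∣ f := by
  rw [dvd_RR_iff'] at hg
  obtain ⟨a, ha⟩ := h2_PS (f : PS) (g : PS) hg (fun N => by
    obtain ⟨a, ha⟩ := h N
    rw [dvd_RR_iff] at ha
    exact ⟨a, ha⟩)
  have hg0 : (g : PS) ≠ 0 := by
    intro h0
    rw [h0] at hg
    exact hg (dvd_zero _)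
  exact ⟨⟨a, RR_div f.2 g.2 hg0 ha⟩, Subtype.ext ha⟩

lemma h3_RR (f : RR) (hf : f ≠ 0) : ∃ N : ℕ, ¬ ry ^ N ∣ f := by
  by_contra hcon
  push Not at hcon
  apply hf
  apply Subtype.ext
  ext m
  have := hcon (m 1 + 1)
  rw [dvd_RR_iff, X_pow_dvd_iff] at this
  rw [this m (Nat.lt_succ_self _)]
  rfl

theorem RR_main : IsNoetherianRing RR ∧
    Ideal.span ({rx, ry} : Set RR) = IsLocalRing.maximalIdeal RR ∧ ringKrullDim RR = 2 :=
  Pool.Agent.Lib_helper7.FSDim.main rx ry ry_prime rx_not_unit ry_not_dvd h1_RR h2_RR h3_RR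

end Pool.Agent.Lib_helper99.FSP
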