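import Pool.Agent.Lib_helper99.FSP.Field

set_option autoImplicit false

/-!
The ambient power series ring `PS = kk⟦x, y⟧` and the standard `p⁻¹`-linear map on it.
-/

namespace Pool.Agent.Lib_helper99.FSP

open MvPowerSeries

variable [Pr]

/-- the ambient ring -/
abbrev PS := MvPowerSeries (Fin 2) kk

instance : CharP kk pp := inferInstance

instance : CharP PS pp := by
  have : Function.Injective (C (σ := Fin 2) (R := kk)) := MvPowerSeries.C_injective
  exact charP_of_injective_ringHom this pp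

/-- the standard `p⁻¹`-linear map -/
noncomputable def phiStd : PS →+ PS where
  toFun f := fun m => lam (coeff (pp • m) f)
  map_zero' := by
    funext m
    rw [map_zero, map_zero]; rfl
  map_add' f g := by
    funext m
    rw [map_add, map_add]; rfl

lemma coeff_phiStd (m : Fin 2 →₀ ℕ) (f : PS) :
    coeff m (phiStd f) = lam (coeff (pp • m) f) := rfl

lemma coeff_pow_smul (s : PS) (m : Fin 2 →₀ ℕ) :
    coeff (pp • m) (s ^ pp) = (coeff m s) ^ pp := by
  rw [← map_frobenius_expand (p := pp) (hp := pp_ne), coeff_map, coeff_expand_smul]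
  rfl

lemma coeff_pow_of_not (s : PS) (m : Fin 2 →₀ ℕ) (h : ¬ ∀ i, pp ∣ m i) :
    coeff m (s ^ pp) = 0 := by
  push Not at h
  obtain ⟨i, hi⟩ := h
  rw [← map_frobenius_expand (p := pp) (hp := pp_ne), coeff_map,
    coeff_expand_of_not_dvd (i := i), map_zero]
  exact hi

/-- multiplying pairs of exponents by `p` -/
noncomputable def dbl : (Fin 2 →₀ ℕ) × (Fin 2 →₀ ℕ) ↪ (Fin 2 →₀ ℕ) × (Fin 2 →₀ ℕ) :=
  ⟨fun ab => (pp • ab.1, pp • ab.2), by
      rintro ⟨a, b⟩ ⟨c, d⟩ h
      simp only [Prod.mk.injEq] at h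
      have h1 := congrArg dv h.1
      have h2 := congrArg dv h.2
      rw [dv_smul, dv_smul] at h1 h2
      rw [h1, h2]⟩

lemma dbl_apply (ab : (Fin 2 →₀ ℕ) × (Fin 2 →₀ ℕ)) : dbl ab = (pp • ab.1, pp • ab.2) := rfl

lemma phiStd_pow_mul (s f : PS) : phiStd (s ^ pp * f) = s * phiStd f := by
  classical
  ext m
  rw [coeff_phiStd, coeff_mul, coeff_mul, map_sum]
  have hsub : (Finset.HasAntidiagonal.antidiagonal m).map dbl ⊆
      Finset.HasAntidiagonal.antidiagonal (pp • m) := by
    intro ab hab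
    obtain ⟨cd, hcd, rfl⟩ := Finset.mem_map.1 hab
    rw [Finset.HasAntidiagonal.mem_antidiagonal] at hcd ⊢
    rw [dbl_apply]
    simp only
    rw [← smul_add, hcd]
  refine (Finset.sum_subset hsub ?_).symm.trans ?_
  · rintro ⟨a, b⟩ hab hnot
    rw [Finset.HasAntidiagonal.mem_antidiagonal] at hab
    simp only at hab ⊢
    by_cases ha : ∀ i, pp ∣ a i
    · exfalso
      apply hnot
      have hb : ∀ i, pp ∣ b i := by
        intro i
        have h1 := DFunLike.congr_fun hab i
        rw [Finsupp.add_apply, Finsupp.smul_apply, smul_eq_mul] at h1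
        have h2 : pp ∣ a i + b i := by rw [h1]; exact dvd_mul_right _ _
        exact (Nat.dvd_add_right (ha i)).1 h2
      rw [Finset.mem_map]
      refine ⟨(dv a, dv b), ?_, ?_⟩
      · rw [Finset.HasAntidiagonal.mem_antidiagonal]
        simp only
        have h3 : pp • (dv a + dv b) = pp • m := by
          rw [smul_add, smul_dv ha, smul_dv hb, hab]
        have h4 := congrArg dv h3
        rwa [dv_smul, dv_smul] at h4
      · rw [dbl_apply]
        simp only
        rw [smul_dv ha, smul_dv hb]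
    · rw [coeff_pow_of_not _ _ ha, zero_mul, map_zero]
  · rw [Finset.sum_map]
    refine Finset.sum_congr rfl fun ab _ => ?_
    rw [dbl_apply]
    simp only
    rw [coeff_pow_smul, lam_pow_mul, coeff_phiStd]

lemma phiStd_monomial_of_dvd (m : Fin 2 →₀ ℕ) (c : kk) (h : ∀ i, pp ∣ m i) :
    phiStd (monomial m c) = monomial (dv m) (lam c) := by
  classical
  ext n
  rw [coeff_phiStd, coeff_monomial, coeff_monomial]
  by_cases hn : n = dv m
  · subst hn
    rw [smul_dv h, if_pos rfl, if_pos rfl]
  · rw [if_neg hn, if_neg, map_zero]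
    intro h2
    apply hn
    rw [← h2, dv_smul]

lemma phiStd_monomial_of_not (m : Fin 2 →₀ ℕ) (c : kk) (h : ¬ ∀ i, pp ∣ m i) :
    phiStd (monomial m c) = 0 := by
  classical
  ext n
  rw [coeff_phiStd, coeff_monomial, if_neg, map_zero, map_zero]
  rintro rfl
  apply h
  intro i
  rw [Finsupp.smul_apply, smul_eq_mul]
  exact dvd_mul_right _ _

lemma phiStd_C (c : kk) : phiStd (C c) = C (lam c) := by
  have h : (C c : PS) = monomial 0 c := rfl
  rw [h, phiStd_monomial_of_dvd _ _ (by simp), dv_zero]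
  rfl

lemma phiStd_one : phiStd 1 = 1 := by
  have h := phiStd_C 1
  rwa [lam_one, map_one] at h

lemma le_order_phiStd (f : PS) (D : ℕ) (h : ((pp * D : ℕ) : ℕ∞) ≤ f.order) :
    (D : ℕ∞) ≤ (phiStd f).order := by
  apply MvPowerSeries.le_order
  intro m hm
  rw [coeff_phiStd, coeff_of_lt_order, map_zero]
  refine lt_of_lt_of_le ?_ h
  rw [map_nsmul, smul_eq_mul]
  have hm' : m.degree < D := by exact_mod_cast hm
  exact_mod_cast Nat.mul_lt_mul_of_pos_left hm' pp_pos

end Pool.Agent.Lib_helper99.FSP
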