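import Pool.Agent.Lib_helper99.FSP.Curve

set_option autoImplicit false

/-!
Tame power series and the ring `RR`.
-/

namespace Pool.Agent.Lib_helper99.FSP

open MvPowerSeries

variable [Pr]

/-- weights detecting divisibility by `y` -/
def wy : Fin 2 → ℕ := ![0, 1]

lemma weight_wy (m : Fin 2 →₀ ℕ) : Finsupp.weight wy m = m 1 := by
  rw [Finsupp.weight_apply, Finsupp.sum_fintype _ _ (by simp), Fin.sum_univ_two]
  simp [wy]

lemma X1_pow_dvd_iff_wo {f : PS} {e : ℕ} : X 1 ^ e ∣ f ↔ (e : ℕ∞) ≤ f.weightedOrder wy := by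
  rw [X_pow_dvd_iff]
  constructor
  · intro h
    apply le_weightedOrder
    intro m hm
    rw [weight_wy] at hm
    exact h m (by exact_mod_cast hm)
  · intro h m hm
    apply coeff_eq_zero_of_lt_weightedOrder wy
    rw [weight_wy]
    exact lt_of_lt_of_le (by exact_mod_cast hm) h

lemma X1_ne : (X 1 : PS) ≠ 0 := by
  intro h
  have := congrArg (coeff (Finsupp.single 1 1)) h
  rw [coeff_index_single_self_X, map_zero] at this
  exact one_ne_zero this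

lemma X1_prime : Prime (X 1 : PS) := by
  refine ⟨X1_ne, ?_, ?_⟩
  · rw [isUnit_iff_constantCoeff, constantCoeff_X]
    exact not_isUnit_zero
  · intro a b h
    by_contra hcon
    push Not at hcon
    have h1 : ∀ f : PS, X 1 ∣ f ↔ (1 : ℕ∞) ≤ f.weightedOrder wy := by
      intro f
      have := X1_pow_dvd_iff_wo (f := f) (e := 1)
      rwa [pow_one, Nat.cast_one] at this
    rw [h1, h1] at hcon
    rw [h1] at h
    obtain ⟨h2, h3⟩ := hcon
    rw [not_le, Order.lt_one_iff] at h2 h3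
    rw [weightedOrder_mul, h2, h3, add_zero] at h
    exact absurd h (by simp)

/-- multiples of the curve `gg (n+2)` by polynomials of level `n+1` -/
def InG (n : ℕ) (h : PS) : Prop := ∃ q ∈ PN (n + 1), h = gg (n + 2) * q

lemma InG.mem {n : ℕ} {h : PS} (hh : InG n h) : h ∈ PN (n + 1) := by
  obtain ⟨q, hq, rfl⟩ := hh
  exact mul_mem (gg_mem n) hq

lemma InG.add {n : ℕ} {h h' : PS} (hh : InG n h) (hh' : InG n h') : InG n (h + h') := by
  obtain ⟨q, hq, rfl⟩ := hh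
  obtain ⟨q', hq', rfl⟩ := hh'
  exact ⟨q + q', add_mem hq hq', by ring⟩

lemma InG.neg {n : ℕ} {h : PS} (hh : InG n h) : InG n (-h) := by
  obtain ⟨q, hq, rfl⟩ := hh
  exact ⟨-q, neg_mem hq, by ring⟩

lemma InG.mul {n : ℕ} {h p : PS} (hh : InG n h) (hp : p ∈ PN (n + 1)) : InG n (p * h) := by
  obtain ⟨q, hq, rfl⟩ := hh
  exact ⟨p * q, mul_mem hp hq, by ring⟩

lemma InG.zero (n : ℕ) : InG n 0 := ⟨0, zero_mem _, by ring⟩

/-- tame power series -/
def Tame (N : ℕ) (f : PS) : Prop :=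
  ∃ F : ℕ → PS, ∀ n, N ≤ n →
    F n ∈ PN n ∧ InG n (F (n + 1) - F n) ∧ ∀ e, N * e ≤ n.factorial → X 1 ^ e ∣ f - F n

lemma Tame.mono {N M : ℕ} (h : N ≤ M) {f : PS} (hf : Tame N f) : Tame M f := by
  obtain ⟨F, hF⟩ := hf
  refine ⟨F, fun n hn => ?_⟩
  obtain ⟨h1, h2, h3⟩ := hF n (h.trans hn)
  exact ⟨h1, h2, fun e he => h3 e ((Nat.mul_le_mul_right e h).trans he)⟩

lemma Tame.add {N : ℕ} {f g : PS} (hf : Tame N f) (hg : Tame N g) : Tame N (f + g) := by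
  obtain ⟨F, hF⟩ := hf
  obtain ⟨G, hG⟩ := hg
  refine ⟨fun n => F n + G n, fun n hn => ?_⟩
  obtain ⟨h1, h2, h3⟩ := hF n hn
  obtain ⟨k1, k2, k3⟩ := hG n hn
  refine ⟨add_mem h1 k1, ?_, fun e he => ?_⟩
  · have := h2.add k2
    convert this using 1
    ring
  · have := dvd_add (h3 e he) (k3 e he)
    convert this using 1
    ring

lemma Tame.neg {N : ℕ} {f : PS} (hf : Tame N f) : Tame N (-f) := by
  obtain ⟨F, hF⟩ := hf
  refine ⟨fun n => - F n, fun n hn => ?_⟩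
  obtain ⟨h1, h2, h3⟩ := hF n hn
  refine ⟨neg_mem h1, ?_, fun e he => ?_⟩
  · have := h2.neg
    convert this using 1
    ring
  · have := (dvd_neg (a := (X 1 : PS) ^ e)).2 (h3 e he)
    convert this using 1
    ring

lemma Tame.sub {N : ℕ} {f g : PS} (hf : Tame N f) (hg : Tame N g) : Tame N (f - g) := by
  rw [sub_eq_add_neg]; exact hf.add hg.neg

lemma Tame.mul {N : ℕ} {f g : PS} (hf : Tame N f) (hg : Tame N g) : Tame N (f * g) := by
  obtain ⟨F, hF⟩ := hf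
  obtain ⟨G, hG⟩ := hg
  refine ⟨fun n => F n * G n, fun n hn => ?_⟩
  obtain ⟨h1, h2, h3⟩ := hF n hn
  obtain ⟨k1, k2, k3⟩ := hG n hn
  have h1' := (hF (n + 1) (by omega)).1
  refine ⟨mul_mem h1 k1, ?_, fun e he => ?_⟩
  · have := (k2.mul h1').add (h2.mul (PN_mono (Nat.le_succ n) k1))
    convert this using 1
    ring
  · have := dvd_add ((k3 e he).mul_left f) ((h3 e he).mul_right (G n))
    convert this using 1
    ring

lemma tame_of_PN {n : ℕ} {f : PS} (hf : f ∈ PN n) : Tame n f := by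
  refine ⟨fun _ => f, fun m hm => ⟨PN_mono hm hf, ?_, fun e _ => ?_⟩⟩
  · simp only [sub_self]
    exact InG.zero m
  · rw [sub_self]; exact dvd_zero _

/-- the ring of tame power series -/
noncomputable def TT : Subring PS where
  carrier := {f | ∃ N, Tame N f}
  mul_mem' := by
    rintro f g ⟨N, hf⟩ ⟨M, hg⟩
    exact ⟨max N M, (hf.mono (le_max_left _ _)).mul (hg.mono (le_max_right _ _))⟩
  one_mem' := ⟨0, tame_of_PN (one_mem _)⟩
  add_mem' := by
    rintro f g ⟨N, hf⟩ ⟨M, hg⟩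
    exact ⟨max N M, (hf.mono (le_max_left _ _)).add (hg.mono (le_max_right _ _))⟩
  zero_mem' := ⟨0, tame_of_PN (zero_mem _)⟩
  neg_mem' := by
    rintro f ⟨N, hf⟩
    exact ⟨N, hf.neg⟩

lemma mem_TT {f : PS} : f ∈ TT ↔ ∃ N, Tame N f := Iff.rfl

lemma TT_of_Pol {f : PS} (hf : f ∈ Pol ⊤) : f ∈ TT := by
  obtain ⟨n, hn⟩ := exists_PN hf
  exact ⟨n, tame_of_PN hn⟩

lemma phi_X1_dvd {f : PS} {e : ℕ} (h : X 1 ^ (pp * e) ∣ f) : X 1 ^ e ∣ phi f := by
  obtain ⟨g, rfl⟩ := h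
  rw [mul_comm pp e, pow_mul, phi_pow_mul]
  exact dvd_mul_right _ _

lemma Tame.phi {N : ℕ} {f : PS} (hf : Tame N f) : Tame (pp * N) (phi f) := by
  obtain ⟨F, hF⟩ := hf
  have hpN : N ≤ pp * N := Nat.le_mul_of_pos_left _ pp_pos
  refine ⟨fun n => FSP.phi (F n), fun n hn => ?_⟩
  obtain ⟨h1, h2, h3⟩ := hF n (by omega)
  refine ⟨phi_mem h1, ?_, fun e he => ?_⟩
  · obtain ⟨q, hq, h⟩ := h2
    obtain ⟨q', hq', h'⟩ := phi_gg_mul hq
    refine ⟨q', hq', ?_⟩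
    rw [← h', ← h, map_sub]
  · rw [← map_sub]
    apply phi_X1_dvd
    apply h3
    calc N * (pp * e) = pp * N * e := by ring
      _ ≤ _ := he

lemma phi_mem_TT {f : PS} (hf : f ∈ TT) : phi f ∈ TT := by
  obtain ⟨N, hN⟩ := hf
  exact ⟨_, hN.phi⟩

/-- division by `y` -/
lemma Tame.of_X1_mul {N : ℕ} {f : PS} (hf : Tame N (X 1 * f)) : Tame (2 * N) f := by
  obtain ⟨F, hF⟩ := hf
  have hdiv : ∀ n, N ≤ n → ∃ G, F n = X 1 * G := by
    intro n hn
    obtain ⟨h1, h2, h3⟩ := hF n hn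
    have h4 := h3 1 (by rw [mul_one]; exact hn.trans (Nat.self_le_factorial n))
    rw [pow_one] at h4
    have h5 := dvd_sub (dvd_mul_right (X 1) f) h4
    rw [sub_sub_cancel] at h5
    exact h5
  choose! G hG using hdiv
  refine ⟨G, fun n hn => ?_⟩
  have hn' : N ≤ n := by omega
  obtain ⟨h1, h2, h3⟩ := hF n hn'
  refine ⟨?_, ?_, fun e he => ?_⟩
  · rw [hG n hn'] at h1
    exact mem_Pol_of_X_mul h1
  · obtain ⟨q, hq, h⟩ := h2
    rw [hG n hn', hG (n + 1) (by omega), ← mul_sub] at h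
    have h4 : (X 1 : PS) ∣ gg (n + 2) * q := ⟨_, h.symm⟩
    rcases X1_prime.dvd_or_dvd h4 with h4 | h4
    · exact absurd h4 (not_X1_dvd_gg n)
    · obtain ⟨q', rfl⟩ := h4
      refine ⟨q', mem_Pol_of_X_mul hq, ?_⟩
      apply mul_left_cancel₀ X1_ne
      rw [h]; ring
  · rcases Nat.eq_zero_or_pos e with rfl | he0
    · rw [pow_zero]; exact one_dvd _
    · have h5 := h3 (e + 1) (by
        calc N * (e + 1) ≤ N * (2 * e) := Nat.mul_le_mul_left _ (by omega)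
          _ = 2 * N * e := by ring
          _ ≤ _ := he)
      rw [hG n hn', ← mul_sub, pow_succ'] at h5
      exact (mul_dvd_mul_iff_left X1_ne).1 h5

lemma TT_of_X1_mul {f : PS} (hf : X 1 * f ∈ TT) : f ∈ TT := by
  obtain ⟨N, hN⟩ := hf
  exact ⟨_, hN.of_X1_mul⟩

/-- the ring -/
noncomputable def RR : Subring PS where
  carrier := {f | ∃ G ∈ TT, G ≠ 0 ∧ G * f ∈ TT}
  mul_mem' := by
    rintro f g ⟨G, hG, hG0, hGf⟩ ⟨H, hH, hH0, hHg⟩
    refine ⟨G * H, mul_mem hG hH, mul_ne_zero hG0 hH0, ?_⟩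
    have := mul_mem hGf hHg
    convert this using 1
    ring
  one_mem' := ⟨1, one_mem _, one_ne_zero, by rw [mul_one]; exact one_mem _⟩
  add_mem' := by
    rintro f g ⟨G, hG, hG0, hGf⟩ ⟨H, hH, hH0, hHg⟩
    refine ⟨G * H, mul_mem hG hH, mul_ne_zero hG0 hH0, ?_⟩
    have := add_mem (mul_mem hGf hH) (mul_mem hHg hG)
    convert this using 1
    ring
  zero_mem' := ⟨1, one_mem _, one_ne_zero, by rw [mul_zero]; exact zero_mem _⟩
  neg_mem' := by
    rintro f ⟨G, hG, hG0, hGf⟩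
    refine ⟨G, hG, hG0, ?_⟩
    rw [mul_neg]; exact neg_mem hGf

lemma mem_RR {f : PS} : f ∈ RR ↔ ∃ G ∈ TT, G ≠ 0 ∧ G * f ∈ TT := Iff.rfl

lemma TT_le_RR : TT ≤ RR := fun f hf => ⟨1, one_mem _, one_ne_zero, by rwa [one_mul]⟩

lemma Pol_le_RR : Pol ⊤ ≤ RR := fun _ hf => TT_le_RR (TT_of_Pol hf)

lemma phi_mem_RR {f : PS} (hf : f ∈ RR) : phi f ∈ RR := by
  obtain ⟨G, hG, hG0, hGf⟩ := hf
  refine ⟨G, hG, hG0, ?_⟩
  have h : G * phi f = phi (G ^ (pp - 1) * (G * f)) := by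
    rw [← mul_assoc, pow_sub_one_mul pp_ne, phi_pow_mul]
  rw [h]
  exact phi_mem_TT (mul_mem (pow_mem hG _) hGf)

/-- quotients -/
lemma RR_div {f g a : PS} (hf : f ∈ RR) (hg : g ∈ RR) (hg0 : g ≠ 0) (h : f = g * a) : a ∈ RR := by
  obtain ⟨G, hG, hG0, hGf⟩ := hf
  obtain ⟨H, hH, hH0, hHg⟩ := hg
  refine ⟨G * (H * g), mul_mem hG hHg, mul_ne_zero hG0 (mul_ne_zero hH0 hg0), ?_⟩
  have := mul_mem hGf hH
  rw [h] at this
  convert this using 1
  ring

lemma RR_of_X1_mul {f : PS} (hf : X 1 * f ∈ RR) : f ∈ RR :=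
  RR_div hf (Pol_le_RR (X_mem_Pol _ 1)) X1_ne rfl

lemma RR_inv {f : PS} (hf : f ∈ RR) (h : constantCoeff f ≠ 0) : f⁻¹ ∈ RR := by
  refine RR_div (one_mem _) hf ?_ (MvPowerSeries.mul_inv_cancel f h).symm
  rintro rfl
  rw [map_zero] at h
  exact h rfl

end Pool.Agent.Lib_helper99.FSP
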