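import Pool.Agent.Lib_helper99.FSP.Poly

set_option autoImplicit false

/-!
Coordinate changes: `th n : (x, y) ↦ (y, t_n x - y^p)`, `Th n = th 0 ∘ ... ∘ th (n-1)`.
-/

namespace Pool.Agent.Lib_helper99.FSP

open MvPowerSeries

variable [Pr]

/-- the parameter `t_n` -/
noncomputable def tt (n : ℕ) : kk := xx (2 * n)

lemma tt_ne (n : ℕ) : tt n ≠ 0 := xx_ne _

lemma tt_mem {n m : ℕ} (h : n < m) : tt n ∈ KK (2 * m) := xx_mem (by omega)

/-- images of the variables under `th n` -/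
noncomputable def thv (n : ℕ) : Fin 2 → PS := ![X 1, C (tt n) * X 0 - X 1 ^ pp]

/-- images of the variables under the inverse of `th n` -/
noncomputable def tiv (n : ℕ) : Fin 2 → PS := ![C (tt n)⁻¹ * (X 1 + X 0 ^ pp), X 0]

lemma thv_cc (n : ℕ) (i : Fin 2) : constantCoeff (thv n i) = 0 := by
  have h := pp_ne
  fin_cases i <;> simp [thv, h]

lemma tiv_cc (n : ℕ) (i : Fin 2) : constantCoeff (tiv n i) = 0 := by
  have h := pp_ne
  fin_cases i <;> simp [tiv, h]

lemma thv_hs (n : ℕ) : HasSubst (thv n) := hasSubst_of_constantCoeff_zero (thv_cc n)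
lemma tiv_hs (n : ℕ) : HasSubst (tiv n) := hasSubst_of_constantCoeff_zero (tiv_cc n)

/-- the elementary coordinate change -/
noncomputable def th (n : ℕ) : PS →ₐ[kk] PS := substAlgHom (thv_hs n)

/-- its inverse -/
noncomputable def ti (n : ℕ) : PS →ₐ[kk] PS := substAlgHom (tiv_hs n)

lemma algHom_C {A : Type} [CommRing A] [Algebra kk A] (T : PS →ₐ[kk] A) (c : kk) :
    T (C c) = algebraMap kk A c := T.commutes c

lemma th_C (n : ℕ) (c : kk) : th n (C c) = C c := (th n).commutes c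
lemma ti_C (n : ℕ) (c : kk) : ti n (C c) = C c := (ti n).commutes c
lemma th_X0 (n : ℕ) : th n (X 0) = X 1 := substAlgHom_X (thv_hs n) 0
lemma th_X1 (n : ℕ) : th n (X 1) = C (tt n) * X 0 - X 1 ^ pp := substAlgHom_X (thv_hs n) 1
lemma ti_X0 (n : ℕ) : ti n (X 0) = C (tt n)⁻¹ * (X 1 + X 0 ^ pp) := substAlgHom_X (tiv_hs n) 0
lemma ti_X1 (n : ℕ) : ti n (X 1) = X 0 := substAlgHom_X (tiv_hs n) 1

lemma C_inv_mul_C {c : kk} (h : c ≠ 0) : (C c⁻¹ : PS) * C c = 1 := by
  rw [← map_mul, inv_mul_cancel₀ h, map_one]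

lemma th_ti (n : ℕ) (f : PS) : th n (ti n f) = f := by
  have h : (fun s => subst (thv n) (tiv n s)) = (X : Fin 2 → PS) := by
    funext s
    rw [← coe_substAlgHom (thv_hs n)]
    change th n (tiv n s) = X s
    fin_cases s
    · change th n (C (tt n)⁻¹ * (X 1 + X 0 ^ pp)) = X 0
      rw [map_mul, map_add, map_pow, th_C, th_X0, th_X1]
      linear_combination (X 0 : PS) * C_inv_mul_C (tt_ne n)
    · exact th_X0 n
  rw [th, ti, substAlgHom_apply, substAlgHom_apply, subst_comp_subst_apply (tiv_hs n) (thv_hs n), h,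
    subst_self]
  rfl

lemma ti_th (n : ℕ) (f : PS) : ti n (th n f) = f := by
  have h : (fun s => subst (tiv n) (thv n s)) = (X : Fin 2 → PS) := by
    funext s
    rw [← coe_substAlgHom (tiv_hs n)]
    change ti n (thv n s) = X s
    fin_cases s
    · exact ti_X1 n
    · change ti n (C (tt n) * X 0 - X 1 ^ pp) = X 1
      rw [map_sub, map_mul, map_pow, ti_C, ti_X0, ti_X1]
      linear_combination (X 1 + X 0 ^ pp : PS) * C_inv_mul_C (tt_ne n)
  rw [th, ti, substAlgHom_apply, substAlgHom_apply, subst_comp_subst_apply (thv_hs n) (tiv_hs n), h,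
    subst_self]
  rfl

lemma le_order_of_subst {a : Fin 2 → PS} (ha : HasSubst a) (h : ∀ i, constantCoeff (a i) = 0)
    (f : PS) : f.order ≤ (substAlgHom ha f).order := by
  rw [substAlgHom_apply]
  refine le_trans ?_ (le_order_subst ha f)
  have h1 : (1 : ℕ∞) ≤ ⨅ i, (a i).order := by
    refine le_iInf fun i => ?_
    exact one_le_order_iff_constCoeff_eq_zero.2 (h i)
  calc f.order = 1 * f.order := (one_mul _).symm
    _ ≤ _ := mul_le_mul_left h1 _

lemma le_order_th (n : ℕ) (f : PS) : f.order ≤ (th n f).order := le_order_of_subst _ (thv_cc n) f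
lemma le_order_ti (n : ℕ) (f : PS) : f.order ≤ (ti n f).order := le_order_of_subst _ (tiv_cc n) f

/-- the composite coordinate change -/
noncomputable def Th : ℕ → (PS →ₐ[kk] PS)
  | 0 => AlgHom.id kk PS
  | n + 1 => (Th n).comp (th n)

/-- its inverse -/
noncomputable def Ti : ℕ → (PS →ₐ[kk] PS)
  | 0 => AlgHom.id kk PS
  | n + 1 => (ti n).comp (Ti n)

lemma Th_zero (f : PS) : Th 0 f = f := rfl
lemma Ti_zero (f : PS) : Ti 0 f = f := rfl
lemma Th_succ (n : ℕ) (f : PS) : Th (n + 1) f = Th n (th n f) := rfl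
lemma Ti_succ (n : ℕ) (f : PS) : Ti (n + 1) f = ti n (Ti n f) := rfl
lemma Th_C (n : ℕ) (c : kk) : Th n (C c) = C c := (Th n).commutes c
lemma Ti_C (n : ℕ) (c : kk) : Ti n (C c) = C c := (Ti n).commutes c

lemma Th_Ti (n : ℕ) (f : PS) : Th n (Ti n f) = f := by
  induction n generalizing f with
  | zero => rfl
  | succ n ih => rw [Th_succ, Ti_succ, th_ti, ih]

lemma Ti_Th (n : ℕ) (f : PS) : Ti n (Th n f) = f := by
  induction n generalizing f with
  | zero => rfl
  | succ n ih => rw [Th_succ, Ti_succ, ih, ti_th]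

lemma le_order_Th (n : ℕ) (f : PS) : f.order ≤ (Th n f).order := by
  induction n generalizing f with
  | zero => exact le_rfl
  | succ n ih => rw [Th_succ]; exact (le_order_th n f).trans (ih _)

lemma le_order_Ti (n : ℕ) (f : PS) : f.order ≤ (Ti n f).order := by
  induction n generalizing f with
  | zero => exact le_rfl
  | succ n ih => rw [Ti_succ]; exact (ih f).trans (le_order_ti n _)

/-- the curves -/
noncomputable def gg (n : ℕ) : PS := Th n (X 0)

lemma gg_succ (n : ℕ) : gg (n + 1) = Th n (X 1) := by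
  rw [gg, Th_succ, th_X0]

lemma gg_zero : gg 0 = X 0 := rfl
lemma gg_one : gg 1 = X 1 := by rw [gg_succ]; rfl

lemma gg_rec (n : ℕ) : gg (n + 2) = C (tt n) * gg n - gg (n + 1) ^ pp := by
  rw [gg_succ, Th_succ, th_X1, map_sub, map_mul, map_pow, Th_C, gg_succ, gg]

lemma constantCoeff_gg (n : ℕ) : constantCoeff (gg n) = 0 := by
  rw [← one_le_order_iff_constCoeff_eq_zero, gg]
  refine le_trans ?_ (le_order_Th n _)
  rw [one_le_order_iff_constCoeff_eq_zero]
  simp

lemma th_mem {n m : ℕ} (h : n < m) {f : PS} (hf : f ∈ PN m) : th n f ∈ PN m := by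
  refine map_mem_Pol (th n) (fun i => ?_) hf
  fin_cases i
  · change th n (X 0) ∈ _
    rw [th_X0]; exact X_mem_Pol _ _
  · change th n (X 1) ∈ _
    rw [th_X1]
    exact sub_mem (mul_mem (C_mem_Pol (tt_mem h)) (X_mem_Pol _ _)) (pow_mem (X_mem_Pol _ _) pp)

lemma ti_mem {n m : ℕ} (h : n < m) {f : PS} (hf : f ∈ PN m) : ti n f ∈ PN m := by
  refine map_mem_Pol (ti n) (fun i => ?_) hf
  fin_cases i
  · change ti n (X 0) ∈ _
    rw [ti_X0]
    exact mul_mem (C_mem_Pol ((KK _).inv_mem (tt_mem h)))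
      (add_mem (X_mem_Pol _ _) (pow_mem (X_mem_Pol _ _) pp))
  · change ti n (X 1) ∈ _
    rw [ti_X1]; exact X_mem_Pol _ _

lemma Th_mem {n m : ℕ} (h : n ≤ m) {f : PS} (hf : f ∈ PN m) : Th n f ∈ PN m := by
  induction n generalizing f with
  | zero => exact hf
  | succ n ih => rw [Th_succ]; exact ih (by omega) (th_mem (by omega) hf)

lemma Ti_mem {n m : ℕ} (h : n ≤ m) {f : PS} (hf : f ∈ PN m) : Ti n f ∈ PN m := by
  induction n generalizing f with
  | zero => exact hf
  | succ n ih => rw [Ti_succ]; exact ti_mem (by omega) (ih (by omega) hf)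

lemma gg_mem (n : ℕ) : gg (n + 2) ∈ PN (n + 1) := by
  rw [gg_succ]
  exact Th_mem le_rfl (X_mem_Pol _ _)

lemma gg_mem' (n : ℕ) : gg n ∈ PN n := Th_mem le_rfl (X_mem_Pol _ _)

end Pool.Agent.Lib_helper99.FSP
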